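import Pool.Agent.helper81.DI.SpecA

set_option autoImplicit false

/-! Row di:A4 of problem MP_baa4d7_al. -/

namespace Pool.Agent.DI

open Pool.Agent.helper58.DC

/-- `R` is the largest term of `C` which does not contain `Y` -/
def A4_top {Γ : Type} [Group Γ] (Y : Subgroup Γ) (C : Finset (Subgroup Γ)) (R : Subgroup Γ) : Prop :=
  R ∈ C ∧ ¬ Y ≤ R ∧ ∀ Q ∈ C, ¬ Y ≤ Q → Q ≤ R

open Classical in
/-- the element to be toggled -/
noncomputable def A4_t {Γ : Type} [Group Γ] (Y : Subgroup Γ) (C : Finset (Subgroup Γ)) : Subgroup Γ :=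
  if h : ∃ R, A4_top Y C R then h.choose ⊔ Y else ⊥

theorem A4_t_eq {Γ : Type} [Group Γ] {Y : Subgroup Γ} {C : Finset (Subgroup Γ)} {R : Subgroup Γ}
    (h : A4_top Y C R) : A4_t Y C = R ⊔ Y := by
  have h' : ∃ R, A4_top Y C R := ⟨R, h⟩
  have h1 : h'.choose = R := by
    have h2 := h'.choose_spec
    exact le_antisymm (h.2.2 _ h2.1 h2.2.1) (h2.2.2 _ h.1 h.2.1)
  rw [A4_t, dif_pos h', h1]

theorem A4_nz_sup {Γ : Type} [Group Γ] {R Y : Subgroup Γ} {x : Γ} (h1 : x ∈ nz R) (h2 : x ∈ nz Y) :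
    x ∈ nz (R ⊔ Y) := by
  rw [Subgroup.mem_normalizer_iff_map_conj_eq] at h1 h2 ⊢
  rw [Subgroup.map_sup, h1, h2]

theorem A4_nrm {Γ : Type} [Group Γ] {C : Finset (Subgroup Γ)} {x : Γ} :
    x ∈ nrm C ↔ ∀ Q ∈ C, x ∈ nz Q := by
  rw [nrm, Subgroup.mem_iInf]
  exact forall_congr' fun Q => Subgroup.mem_iInf

theorem A4 (hA1 : A1_stmt) : A4_stmt := by
  classical
  intro Γ _ _ p _ L P M Y g hY hYL hL hM hYP
  refine hA1 (Subgroup Γ) {C | PCh p L P C} (A4_t Y) (fun C => g (M ⊓ nrm C)) ?_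
  intro C hC D hD
  have hC : PCh p L P C := hC
  -- the largest term
  obtain ⟨R, hR⟩ : ∃ R, A4_top Y C R := by
    have hne : (C.filter fun Q => ¬ Y ≤ Q).Nonempty := ⟨P, Finset.mem_filter.2 ⟨hC.mem, hYP⟩⟩
    obtain ⟨R, hR⟩ := Finset.exists_maximal hne
    have hR1 := Finset.mem_filter.1 hR.prop
    refine ⟨R, hR1.1, hR1.2, fun Q hQ hQY => ?_⟩
    rcases hC.chain.total hQ hR1.1 with h | h
    · exact h
    · exact hR.le_of_ge (Finset.mem_filter.2 ⟨hQ, hQY⟩) h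
  have hPR : P ≤ R := hC.bot R hR.1
  have ht := A4_t_eq hR
  set T := R ⊔ Y with hT
  have hYT : Y ≤ T := le_sup_right
  have hRT : R ≤ T := le_sup_left
  have hTR : R ≠ T := fun h => hR.2.1 (h ▸ hYT)
  have hTP : P ≠ T := fun h => hYP (h ▸ hYT)
  have hTL : T ≤ L := sup_le (hC.le R hR.1) hYL
  have hTp : IsPGroup p T := IsPGroup.to_sup_of_normal_right' (hC.pg R hR.1) hY
    ((hC.le R hR.1).trans hL)
  have hcmp : ∀ Q ∈ C, Q ≤ T ∨ T ≤ Q := by
    intro Q hQ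
    by_cases h : Y ≤ Q
    · right
      rcases hC.chain.total hQ hR.1 with h1 | h1
      · exact absurd (h.trans h1) hR.2.1
      · exact sup_le h1 h
    · left
      exact (hR.2.2 Q hQ h).trans hRT
  have hmem : ∀ Q, Q ≠ T → (Q ∈ D ↔ Q ∈ C) := by
    intro Q hQ
    rcases hD with h | h
    · rw [h, Finset.mem_insert, ht]
      exact ⟨fun h => h.resolve_left hQ, Or.inr⟩
    · rw [h, Finset.mem_erase, ht]
      exact ⟨fun h => h.2, fun h => ⟨hQ, h⟩⟩
  have hRD : A4_top Y D R := by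
    refine ⟨(hmem R hTR).2 hR.1, hR.2.1, fun Q hQ hQY => hR.2.2 Q ((hmem Q ?_).1 hQ) hQY⟩
    rintro rfl
    exact hQY hYT
  have hDch : PCh p L P D := by
    refine ⟨?_, (hmem P hTP).2 hC.mem, ?_, ?_, ?_⟩
    · intro Q hQ Q' hQ' hne
      have hQ : Q ∈ D := hQ
      have hQ' : Q' ∈ D := hQ'
      by_cases h : Q = T
      · subst h
        exact (hcmp Q' ((hmem Q' (Ne.symm hne)).1 hQ')).symm
      · by_cases h' : Q' = T
        · subst h'
          exact hcmp Q ((hmem Q h).1 hQ)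
        · exact hC.chain.total ((hmem Q h).1 hQ) ((hmem Q' h').1 hQ')
    · intro Q hQ
      by_cases h : Q = T
      · subst h
        exact hPR.trans hRT
      · exact hC.bot Q ((hmem Q h).1 hQ)
    · intro Q hQ
      by_cases h : Q = T
      · subst h
        exact hTL
      · exact hC.le Q ((hmem Q h).1 hQ)
    · intro Q hQ
      by_cases h : Q = T
      · subst h
        exact hTp
      · exact hC.pg Q ((hmem Q h).1 hQ)
  refine ⟨hDch, (A4_t_eq hRD).trans ht.symm, ?_⟩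
  -- normalisers
  have key : ∀ E : Finset (Subgroup Γ), P ∈ E → R ∈ E → ∀ x ∈ M,
      (∀ Q ∈ E, Q ≠ T → x ∈ nz Q) → x ∈ nz T := by
    intro E hP hR x hx h
    exact A4_nz_sup (h R hR hTR) (hM ⟨hx, h P hP hTP⟩)
  have heq : M ⊓ nrm D = M ⊓ nrm C := by
    ext x
    rw [Subgroup.mem_inf, Subgroup.mem_inf, A4_nrm, A4_nrm]
    refine and_congr_right fun hx => ⟨fun h Q hQ => ?_, fun h Q hQ => ?_⟩
    · by_cases h' : Q = T
      · subst h'
        exact key D ((hmem P hTP).2 hC.mem) hRD.1 x hx fun Q hQ _ => h Q hQ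
      · exact h Q ((hmem Q h').2 hQ)
    · by_cases h' : Q = T
      · subst h'
        exact key C hC.mem hR.1 x hx fun Q hQ _ => h Q hQ
      · exact h Q ((hmem Q h').1 hQ)
  show g (M ⊓ nrm D) = g (M ⊓ nrm C)
  rw [heq]

end Pool.Agent.DI
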