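import Pool.Agent.helper81.DI.SpecB

set_option autoImplicit false

/-! Row di:B6 of problem MP_baa4d7_al. -/

namespace Pool.Agent.DI

open Pool.Agent.helper58.DC

/-- the twist of a representation by a linear character -/
noncomputable def B6_rep {H V : Type} [Group H] [AddCommGroup V] [Module ℂ V]
    (ρ : Representation ℂ H V) (l : H →* ℂˣ) : Representation ℂ H V where
  toFun x := ((l x : ℂˣ) : ℂ) • ρ x
  map_one' := by rw [map_one, map_one, Units.val_one, one_smul]
  map_mul' x y := by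
    rw [map_mul, map_mul, Units.val_mul, smul_mul_smul_comm]

theorem B6_mem {H V : Type} [Group H] [AddCommGroup V] [Module ℂ V]
    (ρ : Representation ℂ H V) (l : H →* ℂˣ) (W : Submodule ℂ V) (x : H) {v : V} :
    B6_rep ρ l x v ∈ W ↔ ρ x v ∈ W := by
  show ((l x : ℂˣ) : ℂ) • ρ x v ∈ W ↔ ρ x v ∈ W
  exact W.smul_mem_iff (l x).ne_zero

/-- the subrepresentations are the same -/
noncomputable def B6_iso {H V : Type} [Group H] [AddCommGroup V] [Module ℂ V]
    (ρ : Representation ℂ H V) (l : H →* ℂˣ) :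
    Subrepresentation (B6_rep ρ l) ≃o Subrepresentation ρ where
  toFun W := ⟨W.toSubmodule, fun x _ hv => (B6_mem ρ l _ x).1 (W.apply_mem_toSubmodule x hv)⟩
  invFun W := ⟨W.toSubmodule, fun x _ hv => (B6_mem ρ l _ x).2 (W.apply_mem_toSubmodule x hv)⟩
  left_inv _ := rfl
  right_inv _ := rfl
  map_rel_iff' := Iff.rfl

theorem B6 : B6_stmt := by
  rintro H _ _ φ ⟨V, _, _, _, ρ, hρ, rfl⟩ l
  refine ⟨V, inferInstance, inferInstance, inferInstance, B6_rep ρ l, ?_, ?_⟩
  · have : IsSimpleOrder (Subrepresentation ρ) := hρ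
    exact (B6_iso ρ l).isSimpleOrder
  · funext x
    show LinearMap.trace ℂ V (((l x : ℂˣ) : ℂ) • ρ x) = ((l x : ℂˣ) : ℂ) * LinearMap.trace ℂ V (ρ x)
    rw [map_smul, smul_eq_mul]

end Pool.Agent.DI
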